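import Mathlib
import Pool.Agent.H332R2.CastLem

/-! Truncated generating functions modulo `p`: the series `h = ∑ B_k X^k / k!`, its
exponentials `E_j`, and the Nörlund recursion for the twisted powers `(V h)^(N+1)`. -/

open Finset PowerSeries

namespace Pool.Agent.Run7.h572.RM

open Pool.Agent.H332R2

variable (p : ℕ) [hp : Fact p.Prime]

/-- `∑ B_k X^k/k!` modulo `p` (only the coefficients below `p - 1` matter) -/
noncomputable def hh : (ZMod p)⟦X⟧ := PowerSeries.mk (cc p)

/-- `∑ j^k X^k/k!` modulo `p` (only the coefficients below `p` matter) -/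
noncomputable def EE (j : ℕ) : (ZMod p)⟦X⟧ :=
  PowerSeries.mk (fun k => (j : ZMod p) ^ k * ((k.factorial : ℕ) : ZMod p)⁻¹)

variable {p}

lemma EE_zero : EE p 0 = 1 := by
  ext n
  rw [EE, coeff_mk, coeff_one]
  rcases Nat.eq_zero_or_pos n with rfl | h
  · simp
  · rw [if_neg (by omega), Nat.cast_zero, zero_pow (by omega), zero_mul]

lemma hh_constantCoeff : constantCoeff (hh p) = 1 := by
  rw [← coeff_zero_eq_constantCoeff_apply, hh, coeff_mk, cc_zero]

lemma hh_mul : (X : (ZMod p)⟦X⟧) ^ p ∣ hh p * (EE p 1 - 1) - X := by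
  rw [X_pow_dvd_iff]
  intro l hl
  have h1 : coeff l (hh p * (EE p 1 - 1)) =
      ∑ k ∈ range l, cc p k * (((l - k).factorial : ℕ) : ZMod p)⁻¹ := by
    rw [mul_sub, map_sub, mul_one, coeff_mul, Finset.Nat.sum_antidiagonal_eq_sum_range_succ_mk,
      Finset.sum_range_succ]
    simp [hh, EE]
  rw [map_sub, h1, coeff_X]
  rcases Nat.lt_or_ge l 2 with h | h
  · interval_cases l
    · simp
    · simp [cc_zero]
  · rw [cc_rec h (by omega), if_neg (by omega), sub_zero]

lemma EE_succ (j : ℕ) : (X : (ZMod p)⟦X⟧) ^ p ∣ EE p (j + 1) - EE p j * EE p 1 := by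
  rw [X_pow_dvd_iff]
  intro l hl
  rw [map_sub, coeff_mul, Finset.Nat.sum_antidiagonal_eq_sum_range_succ_mk, sub_eq_zero]
  simp only [EE, coeff_mk, Nat.cast_add, Nat.cast_one, one_pow, one_mul]
  rw [add_pow, Finset.sum_mul]
  refine Finset.sum_congr rfl (fun k hk => ?_)
  rw [Finset.mem_range] at hk
  have hkl : k ≤ l := by omega
  have h6 := Nat.choose_mul_factorial_mul_factorial hkl
  have h7 : ((l.choose k : ℕ) : ZMod p) * ((k.factorial : ℕ) : ZMod p) *
      (((l - k).factorial : ℕ) : ZMod p) = ((l.factorial : ℕ) : ZMod p) := by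
    exact_mod_cast congrArg (fun n : ℕ => (n : ZMod p)) h6
  have f1 := fact_ne_zero (p := p) (k := k) (by omega)
  have f2 := fact_ne_zero (p := p) (k := l - k) (by omega)
  have f3 := fact_ne_zero (p := p) (k := l) (by omega)
  have hch : ((l.choose k : ℕ) : ZMod p) ≠ 0 := by
    intro h0; rw [h0] at h7; simp at h7; exact f3 h7.symm
  rw [← h7, one_pow, mul_one]
  field_simp

lemma EE_deriv : (X : (ZMod p)⟦X⟧) ^ (p - 1) ∣ d⁄dX (ZMod p) (EE p 1) - EE p 1 := by
  rw [X_pow_dvd_iff]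
  intro l hl
  rw [map_sub, coeff_derivative, sub_eq_zero]
  simp only [EE, coeff_mk, Nat.cast_one, one_pow, one_mul]
  have h2 := nat_ne_zero (p := p) (k := l + 1) (by omega) (by omega)
  have h3 := fact_ne_zero (p := p) (k := l) (by omega)
  rw [Nat.factorial_succ]
  push_cast at h2 ⊢
  field_simp

/-- the Riccati equation for the Bernoulli series -/
lemma hh_riccati : (X : (ZMod p)⟦X⟧) ^ (p - 1) ∣
    hh p ^ 2 - hh p + X * d⁄dX (ZMod p) (hh p) + X * hh p := by
  obtain ⟨R, hR⟩ := hh_mul (p := p)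
  obtain ⟨S, hS⟩ := EE_deriv (p := p)
  have hp2 := hp.out.two_le
  have hpp : (X : (ZMod p)⟦X⟧) ^ p = X ^ (p - 1) * X := by
    rw [← pow_succ]; congr 1; omega
  have hd := congrArg (d⁄dX (ZMod p)) hR
  simp only [map_sub, Derivation.leibniz, smul_eq_mul, Derivation.map_one_eq_zero, sub_zero,
    derivative_X] at hd
  have hdp : d⁄dX (ZMod p) ((X : (ZMod p)⟦X⟧) ^ p) = 0 := by
    have hc : ((p : ℕ) : (ZMod p)⟦X⟧) = 0 := by
      rw [← map_natCast (PowerSeries.C (R := ZMod p)) p, ZMod.natCast_self, map_zero]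
    rw [Derivation.leibniz_pow, nsmul_eq_mul, hc, zero_mul]
  rw [hdp, mul_zero, add_zero] at hd
  rw [hpp] at hR hd
  refine ⟨hh p * X * d⁄dX (ZMod p) R - hh p ^ 2 * S - X * R * d⁄dX (ZMod p) (hh p)
    - R * X * hh p, ?_⟩
  have e1 : hh p * (EE p 1 - 1) = X + X ^ (p - 1) * X * R := by rw [← hR]; ring
  have e2 : d⁄dX (ZMod p) (EE p 1) = EE p 1 + X ^ (p - 1) * S := by rw [← hS]; ring
  rw [e2] at hd
  linear_combination (hh p) * hd - (d⁄dX (ZMod p) (hh p)) * e1 - (hh p) * e1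

/-- the Nörlund recursion for the twisted powers -/
lemma phi_rec (V : (ZMod p)⟦X⟧) (N : ℕ) : (X : (ZMod p)⟦X⟧) ^ (p - 1) ∣
    ((N + 1 : ℕ) : (ZMod p)⟦X⟧) * (V * hh p) ^ (N + 2)
      - ((N + 1 : ℕ) : (ZMod p)⟦X⟧) * ((V + X * d⁄dX (ZMod p) V - X * V) * (V * hh p) ^ (N + 1))
      + X * V * d⁄dX (ZMod p) ((V * hh p) ^ (N + 1)) := by
  obtain ⟨R, hR⟩ := hh_riccati (p := p)
  refine ⟨((N + 1 : ℕ) : (ZMod p)⟦X⟧) * (V * hh p) ^ N * V ^ 2 * R, ?_⟩
  rw [Derivation.leibniz_pow, nsmul_eq_mul, Derivation.leibniz]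
  simp only [smul_eq_mul, Nat.add_sub_cancel]
  have e1 : (V * hh p) ^ (N + 2) = (V * hh p) ^ N * (V * hh p) ^ 2 := by ring
  have e2 : (V * hh p) ^ (N + 1) = (V * hh p) ^ N * (V * hh p) := by ring
  rw [e1, e2]
  linear_combination (((N + 1 : ℕ) : (ZMod p)⟦X⟧) * (V * hh p) ^ N * V ^ 2) * hR

/-- coefficients of a product with a short factor -/
lemma coeff_mul_short {A B : (ZMod p)⟦X⟧} {D l : ℕ} (hA : ∀ i, D < i → coeff i A = 0)
    (hB : ∀ k, l ≤ k + D → k ≤ l → coeff k B = 0) : coeff l (A * B) = 0 := by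
  rw [coeff_mul]
  refine Finset.sum_eq_zero (fun x hx => ?_)
  rw [Finset.HasAntidiagonal.mem_antidiagonal] at hx
  rcases Nat.lt_or_ge D x.1 with h | h
  · rw [hA _ h, zero_mul]
  · rw [hB x.2 (by omega) (by omega), mul_zero]

/-- the window of vanishing coefficients propagates to the powers -/
lemma phi_window (V : (ZMod p)⟦X⟧) (D n W : ℕ) (hV : ∀ i, D < i → coeff i V = 0)
    (hW : W + 2 ≤ p)
    (h0 : ∀ l, n < l → l ≤ W → coeff l (V * hh p) = 0) (N : ℕ) (hN : N < p) :
    ∀ l, n + N * (D + 1) < l → l ≤ W → coeff l ((V * hh p) ^ (N + 1)) = 0 := by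
  induction N with
  | zero =>
    intro l hl hlW
    rw [zero_add, pow_one]
    exact h0 l (by omega) hlW
  | succ N ih =>
    intro l hl hlW
    have ih' := ih (by omega)
    have hmul : (N + 1) * (D + 1) = N * (D + 1) + (D + 1) := by ring
    have hrec := X_pow_dvd_iff.mp (phi_rec V N) l (by omega)
    rw [map_add, map_sub] at hrec
    have hsub : ∀ k, l ≤ k + (D + 1) → k ≤ l → coeff k ((V * hh p) ^ (N + 1)) = 0 := by
      intro k hk1 hk2
      exact ih' k (by omega) (by omega)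
    have hA : ∀ i, D + 1 < i → coeff i (V + X * d⁄dX (ZMod p) V - X * V) = 0 := by
      intro i hi
      obtain ⟨i', rfl⟩ : ∃ i', i = i' + 1 := ⟨i - 1, by omega⟩
      rw [map_sub, map_add, coeff_succ_X_mul, coeff_succ_X_mul, coeff_derivative,
        hV (i' + 1) (by omega), hV i' (by omega)]
      ring
    have t1 : coeff l ((V + X * d⁄dX (ZMod p) V - X * V) * (V * hh p) ^ (N + 1)) = 0 :=
      coeff_mul_short hA hsub
    have t2 : coeff l (X * V * d⁄dX (ZMod p) ((V * hh p) ^ (N + 1))) = 0 := by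
      have e : X * V * d⁄dX (ZMod p) ((V * hh p) ^ (N + 1)) =
        V * (X * d⁄dX (ZMod p) ((V * hh p) ^ (N + 1))) := by ring
      rw [e]
      refine coeff_mul_short hV (fun k hk1 hk2 => ?_)
      rcases Nat.eq_zero_or_pos k with rfl | hk
      · simp
      · obtain ⟨k', rfl⟩ : ∃ k', k = k' + 1 := ⟨k - 1, by omega⟩
        rw [coeff_succ_X_mul, coeff_derivative, hsub (k' + 1) (by omega) hk2, zero_mul]
    have hcast : ∀ (c : ℕ) (A : (ZMod p)⟦X⟧), coeff l ((c : (ZMod p)⟦X⟧) * A) =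
        (c : ZMod p) * coeff l A := by
      intro c A
      rw [← map_natCast (PowerSeries.C (R := ZMod p)) c, coeff_C_mul]
    rw [hcast, hcast, t1, t2, mul_zero, sub_zero, add_zero] at hrec
    have hN1 := nat_ne_zero (p := p) (k := N + 1) (by omega) (by omega)
    exact (mul_eq_zero.mp hrec).resolve_left hN1

/-- the window of vanishing coefficients at all the nodes `0, …, N + 1` -/
lemma phi_nodes (V : (ZMod p)⟦X⟧) (D n W : ℕ) (hV : ∀ i, D < i → coeff i V = 0)
    (hn : D + 1 ≤ n) (hW : W + 2 ≤ p)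
    (h0 : ∀ l, n < l → l ≤ W → coeff l (V * hh p) = 0) (N : ℕ) (hN : N < p) :
    ∀ j, j ≤ N + 1 → ∀ l, n + N * (D + 1) < l → l ≤ W →
      coeff l ((V * hh p) ^ (N + 1) * EE p j) = 0 := by
  induction N with
  | zero =>
    intro j hj
    have hstep0 : ∀ l, n + 0 * (D + 1) < l → l ≤ W →
        coeff l ((V * hh p) ^ (0 + 1) * EE p 0) = 0 := by
      intro l hl hlW
      rw [EE_zero, mul_one]
      exact phi_window V D n W hV hW h0 0 hN l hl hlW
    intro l hl hlW
    rcases Nat.eq_zero_or_pos j with rfl | hj0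
    · exact hstep0 l hl hlW
    · have hj1 : j = 0 + 1 := by omega
      subst hj1
      have h1 := X_pow_dvd_iff.mp
        (Dvd.dvd.mul_left (hh_mul (p := p)) V) l (by omega)
      have e : (V * hh p) ^ (0 + 1) * EE p (0 + 1) =
          (V * hh p) ^ (0 + 1) * EE p 0 + V * (hh p * (EE p 1 - 1) - X) + X * V := by
        rw [EE_zero, zero_add]; ring
      rw [e, map_add, map_add, hstep0 l hl hlW, h1, zero_add, zero_add]
      obtain ⟨l', rfl⟩ : ∃ l', l = l' + 1 := ⟨l - 1, by omega⟩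
      rw [coeff_succ_X_mul]
      exact hV l' (by omega)
  | succ N ih =>
    have ih' := ih (by omega)
    have hmul : (N + 1) * (D + 1) = N * (D + 1) + (D + 1) := by ring
    intro j
    induction j with
    | zero =>
      intro _ l hl hlW
      rw [EE_zero, mul_one]
      exact phi_window V D n W hV hW h0 (N + 1) hN l hl hlW
    | succ j ihj =>
      intro hj l hl hlW
      have h1 := X_pow_dvd_iff.mp
        (Dvd.dvd.mul_left (EE_succ (p := p) j) ((V * hh p) ^ (N + 1 + 1))) l (by omega)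
      have h2 := X_pow_dvd_iff.mp
        (Dvd.dvd.mul_left (hh_mul (p := p)) ((V * hh p) ^ (N + 1) * V * EE p j)) l (by omega)
      have e : (V * hh p) ^ (N + 1 + 1) * EE p (j + 1) =
          (V * hh p) ^ (N + 1 + 1) * (EE p (j + 1) - EE p j * EE p 1)
          + (V * hh p) ^ (N + 1) * V * EE p j * (hh p * (EE p 1 - 1) - X)
          + (V * hh p) ^ (N + 1 + 1) * EE p j
          + X * (V * ((V * hh p) ^ (N + 1) * EE p j)) := by ring
      rw [e, map_add, map_add, map_add, h1, h2, ihj (by omega) l hl hlW, zero_add, zero_add,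
        zero_add]
      obtain ⟨l', rfl⟩ : ∃ l', l = l' + 1 := ⟨l - 1, by omega⟩
      rw [coeff_succ_X_mul]
      refine coeff_mul_short hV (fun k hk1 hk2 => ?_)
      exact ih' j (by omega) k (by omega) (by omega)

end Pool.Agent.Run7.h572.RM
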