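import Mathlib
import Pool.Agent.Run7.h572.RM.Series

/-! The rank statement: no nontrivial combination of the shifted Bernoulli sequences
vanishes on a long window modulo `p`. -/

open Finset

namespace Pool.Agent.Run7.h572.RM

open Pool.Agent.H332R2

variable {p : ℕ} [hp : Fact p.Prime]

open PowerSeries in
/-- the polynomial `∑ φ_k z^(w-k)/(w-k)!` attached to a series `φ` -/
noncomputable def SS (φ : (ZMod p)⟦X⟧) (w : ℕ) : Polynomial (ZMod p) :=
  ∑ k ∈ range (w + 1), Polynomial.C (coeff k φ * (((w - k).factorial : ℕ) : ZMod p)⁻¹) *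
    Polynomial.X ^ (w - k)

open PowerSeries in
lemma SS_eval (φ : (ZMod p)⟦X⟧) (w j : ℕ) :
    (SS φ w).eval (j : ZMod p) = coeff w (φ * EE p j) := by
  rw [coeff_mul, Finset.Nat.sum_antidiagonal_eq_sum_range_succ_mk, SS, Polynomial.eval_finsetSum]
  refine Finset.sum_congr rfl (fun k _ => ?_)
  simp only [Polynomial.eval_mul, Polynomial.eval_C, Polynomial.eval_pow, Polynomial.eval_X, EE,
    coeff_mk]
  ring

open PowerSeries in
lemma SS_coeff (φ : (ZMod p)⟦X⟧) (w k : ℕ) (hk : k ≤ w) :
    (SS φ w).coeff (w - k) = coeff k φ * (((w - k).factorial : ℕ) : ZMod p)⁻¹ := by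
  unfold SS
  rw [Polynomial.finsetSum_coeff, Finset.sum_eq_single k]
  · rw [Polynomial.coeff_C_mul, Polynomial.coeff_X_pow, if_pos rfl, mul_one]
  · intro k' hk' hne
    rw [Finset.mem_range] at hk'
    rw [Polynomial.coeff_C_mul, Polynomial.coeff_X_pow, if_neg (by omega), mul_zero]
  · intro h
    exact absurd (Finset.mem_range.mpr (by omega)) h

lemma SS_natDegree_le (φ : PowerSeries (ZMod p)) (w : ℕ) : (SS φ w).natDegree ≤ w := by
  unfold SS
  refine Polynomial.natDegree_sum_le_of_forall_le _ _ (fun k hk => ?_)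
  refine (Polynomial.natDegree_C_mul_X_pow_le _ _).trans (by omega)

open PowerSeries in
lemma SS_derivative (φ : (ZMod p)⟦X⟧) {w : ℕ} (hw : w + 2 ≤ p) :
    Polynomial.derivative (SS φ (w + 1)) = SS φ w := by
  unfold SS
  rw [Finset.sum_range_succ, map_add, map_sum]
  simp only [Nat.sub_self, pow_zero, mul_one, Polynomial.derivative_C, add_zero]
  refine Finset.sum_congr rfl (fun k hk => ?_)
  rw [Finset.mem_range] at hk
  rw [Polynomial.derivative_C_mul_X_pow]
  have h1 : w + 1 - k = (w - k) + 1 := by omega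
  rw [h1, Nat.add_sub_cancel, Nat.factorial_succ]
  congr 2
  have h2 := nat_ne_zero (p := p) (k := w - k + 1) (by omega) (by omega)
  have h3 := fact_ne_zero (p := p) (k := w - k) (by omega)
  push_cast at h2 ⊢
  field_simp

lemma SS_iter_derivative (φ : PowerSeries (ZMod p)) (w i : ℕ) (hi : i ≤ w) (hw : w + 1 ≤ p) :
    (Polynomial.derivative^[i]) (SS φ w) = SS φ (w - i) := by
  induction i with
  | zero => simp
  | succ i ih =>
    rw [Function.iterate_succ_apply', ih (by omega)]
    have h : w - i = (w - (i + 1)) + 1 := by omega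
    rw [h, SS_derivative φ (by omega)]

/-- a polynomial of degree at most `w` with `r` roots `0, …, r-1` of multiplicity above `I`
vanishes when `w < (I+1) r` -/
lemma SS_eq_zero (φ : PowerSeries (ZMod p)) (w r I : ℕ) (hI : I ≤ w) (hw : w + 1 ≤ p)
    (hr : r ≤ p) (hcount : w < (I + 1) * r)
    (hv : ∀ j, j < r → ∀ l, w ≤ l + I → l ≤ w → (SS φ l).eval (j : ZMod p) = 0) :
    SS φ w = 0 := by
  by_contra hQ0
  set Q := SS φ w with hQ
  set Z : Finset (ZMod p) := (range r).image (fun j : ℕ => (j : ZMod p)) with hZ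
  have hZcard : Z.card = r := by
    rw [hZ, Finset.card_image_of_injOn, Finset.card_range]
    intro a ha b hb hab
    rw [Finset.coe_range, Set.mem_Iio] at ha hb
    have hab' : (a : ZMod p) = (b : ZMod p) := hab
    rw [ZMod.natCast_eq_natCast_iff'] at hab'
    rwa [Nat.mod_eq_of_lt (by omega), Nat.mod_eq_of_lt (by omega)] at hab'
  have hmult : ∀ z ∈ Z, I < Q.rootMultiplicity z := by
    intro z hz
    rw [hZ, Finset.mem_image] at hz
    obtain ⟨j, hj, rfl⟩ := hz
    rw [Finset.mem_range] at hj
    refine Polynomial.lt_rootMultiplicity_of_isRoot_iterate_derivative_of_mem_nonZeroDivisors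
      hQ0 ?_ ?_
    · intro i hi
      rw [hQ, SS_iter_derivative φ w i (by omega) (by omega)]
      exact hv j hj (w - i) (by omega) (by omega)
    · exact mem_nonZeroDivisors_of_ne_zero (fact_ne_zero (by omega))
  have hcount' : (I + 1) * Z.card ≤ Q.roots.card := by
    calc (I + 1) * Z.card = ∑ z ∈ Z, (I + 1) := by rw [Finset.sum_const, smul_eq_mul, mul_comm]
      _ ≤ ∑ z ∈ Z, Q.roots.count z := by
          refine Finset.sum_le_sum (fun z hz => ?_)
          rw [Polynomial.count_roots]
          exact hmult z hz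
      _ ≤ Q.roots.card := by
          have hsub : Z ⊆ Q.roots.toFinset := by
            intro z hz
            rw [Multiset.mem_toFinset, ← Multiset.count_pos, Polynomial.count_roots]
            have := hmult z hz
            omega
          calc ∑ z ∈ Z, Q.roots.count z ≤ ∑ z ∈ Q.roots.toFinset, Q.roots.count z :=
                Finset.sum_le_sum_of_subset hsub
            _ = Q.roots.card := Multiset.toFinset_sum_count_eq _
  have hdeg : Q.roots.card ≤ w := (Polynomial.card_roots' Q).trans (SS_natDegree_le φ w)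
  rw [hZcard] at hcount'
  omega

open PowerSeries in
/-- if all the coefficients up to `w` of a power of a short series times a unit vanish, the
series is zero -/
lemma short_eq_zero (V h : (ZMod p)⟦X⟧) (D N w : ℕ) (hV : ∀ i, D < i → coeff i V = 0)
    (hh1 : constantCoeff h = 1) (hw : (N + 1) * D ≤ w)
    (h0 : ∀ k, k ≤ w → coeff k ((V * h) ^ (N + 1)) = 0) : V = 0 := by
  by_contra hne
  have hu : IsUnit h := by
    rw [PowerSeries.isUnit_iff_constantCoeff, hh1]
    exact isUnit_one
  have hu0 : order h = 0 := PowerSeries.order_zero_of_unit hu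
  have hle : ((w + 1 : ℕ) : ℕ∞) ≤ order ((V * h) ^ (N + 1)) := by
    refine PowerSeries.nat_le_order _ _ (fun k hk => h0 k (by omega))
  rw [PowerSeries.order_pow, PowerSeries.order_mul, hu0, add_zero] at hle
  have hD : order V ≤ (D : ℕ∞) := by
    obtain ⟨i, hi⟩ : ∃ i, coeff i V ≠ 0 := by
      by_contra hcon
      push Not at hcon
      exact hne (PowerSeries.ext (fun i => by rw [hcon i, map_zero]))
    have hiD : i ≤ D := by
      by_contra hcon
      exact hi (hV i (by omega))
    exact (PowerSeries.order_le i hi).trans (by exact_mod_cast hiD)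
  have h2 : (N + 1) • order V ≤ (((N + 1) * D : ℕ) : ℕ∞) := by
    calc (N + 1) • order V ≤ (N + 1) • (D : ℕ∞) := nsmul_le_nsmul_right hD _
      _ = (((N + 1) * D : ℕ) : ℕ∞) := by rw [nsmul_eq_mul]; push_cast; ring
  have h3 := hle.trans h2
  have h4 : w + 1 ≤ (N + 1) * D := by exact_mod_cast h3
  omega

open PowerSeries in
/-- the core statement: a short series `V` with `V h` vanishing on a long window is zero -/
lemma core (V : (ZMod p)⟦X⟧) (D n W N : ℕ) (hV : ∀ i, D < i → coeff i V = 0)
    (hn : D + 1 ≤ n) (hW : W + 2 ≤ p) (hN : N + 2 ≤ p)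
    (hlong : n + N * (D + 1) < W)
    (hcount : W < (W - (n + N * (D + 1))) * (N + 2)) (hDW : (N + 1) * D ≤ W)
    (h0 : ∀ l, n < l → l ≤ W → coeff l (V * hh p) = 0) : V = 0 := by
  have hnodes := phi_nodes V D n W hV hn hW h0 N (by omega)
  have hS : SS ((V * hh p) ^ (N + 1)) W = 0 := by
    refine SS_eq_zero _ W (N + 2) (W - (n + N * (D + 1)) - 1) (by omega) (by omega) hN ?_ ?_
    · have : W - (n + N * (D + 1)) - 1 + 1 = W - (n + N * (D + 1)) := by omega
      rw [this]; exact hcount
    · intro j hj l hl hlW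
      rw [SS_eval]
      exact hnodes j (by omega) l (by omega) hlW
  refine short_eq_zero V (hh p) D N W hV hh_constantCoeff hDW (fun k hk => ?_)
  have h1 := SS_coeff ((V * hh p) ^ (N + 1)) W k hk
  rw [hS, Polynomial.coeff_zero] at h1
  have h2 := fact_ne_zero (p := p) (k := W - k) (by omega)
  exact (mul_eq_zero.mp h1.symm).resolve_right (inv_ne_zero h2)

end Pool.Agent.Run7.h572.RM
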